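import Mathlib
import Pool.Agent.Helper76.Conway.Hecke3

/-!
# Maximum principle for products of the reduced Burau matrices of the four-strand braid group

`Bm s i` are the reduced Burau matrices in the symmetric gauge (`q = s ^ 2`). If on the curve `Ray`
(`arg (1/s - s) = ± 60°`) all products have spectral radius at most one, then the same holds in the
region `Reg` enclosed by the curve, and `det (1 - product)` has no zero in `Reg` unless it vanishes
identically.
-/

namespace Pool.Agent.Helper69.S4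

open Matrix Complex Filter Topology

/-- Reduced Burau matrices, symmetric gauge. -/
noncomputable def Bm (s : ℂ) : Fin 3 → Matrix (Fin 3) (Fin 3) ℂ
  | 0 => !![-s ^ 2, s, 0; 0, 1, 0; 0, 0, 1]
  | 1 => !![1, 0, 0; s, -s ^ 2, s; 0, 0, 1]
  | 2 => !![1, 0, 0; 0, 1, 0; 0, s, -s ^ 2]

/-- The matrix of a word. -/
noncomputable def Pw (s : ℂ) (l : List (Fin 3)) : Matrix (Fin 3) (Fin 3) ℂ := (l.map (Bm s)).prod

/-- The open region `|arg (1/s - s)| < 60°`. -/
def Reg (s : ℂ) : Prop :=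
  0 < s.re ∧ ‖s‖ < 1 ∧ s.im ^ 2 * (1 + ‖s‖ ^ 2) ^ 2 < 3 * (s.re ^ 2 * (1 - ‖s‖ ^ 2) ^ 2)

/-- The boundary curve. -/
def Ray (s : ℂ) : Prop :=
  0 < s.re ∧ ‖s‖ < 1 ∧ s.im ^ 2 * (1 + ‖s‖ ^ 2) ^ 2 = 3 * (s.re ^ 2 * (1 - ‖s‖ ^ 2) ^ 2)

/-- All eigenvalues have modulus at most one. -/
def Small (M : Matrix (Fin 3) (Fin 3) ℂ) : Prop :=
  ∀ (c : ℂ) (v : Fin 3 → ℂ), v ≠ 0 → M *ᵥ v = c • v → ‖c‖ ≤ 1

theorem Pw_cons (s : ℂ) (a : Fin 3) (l : List (Fin 3)) : Pw s (a :: l) = Bm s a * Pw s l := by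
  simp [Pw]

theorem Pw_append (s : ℂ) (l₁ l₂ : List (Fin 3)) : Pw s (l₁ ++ l₂) = Pw s l₁ * Pw s l₂ := by
  simp [Pw]

theorem Pw_replicate (s : ℂ) (l : List (Fin 3)) (m : ℕ) :
    Pw s (List.replicate m l).flatten = Pw s l ^ m := by
  induction m with
  | zero => simp [Pw]
  | succ m ih => rw [List.replicate_succ, List.flatten_cons, Pw_append, ih, pow_succ']

theorem det_Bm (s : ℂ) (a : Fin 3) : (Bm s a).det = -s ^ 2 := by
  fin_cases a <;> simp [Bm, Matrix.det_fin_three]

theorem norm_det_Pw {s : ℂ} (hs : ‖s‖ ≤ 1) (l : List (Fin 3)) : ‖(Pw s l).det‖ ≤ 1 := by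
  induction l with
  | nil => simp [Pw]
  | cons a l ih =>
    rw [Pw_cons, Matrix.det_mul, norm_mul, det_Bm, norm_neg, norm_pow]
    have := pow_le_one₀ (n := 2) (norm_nonneg s) hs
    exact mul_le_one₀ this (norm_nonneg _) ih

theorem differentiable_Pw (l : List (Fin 3)) (i j : Fin 3) :
    Differentiable ℂ (fun s => Pw s l i j) := by
  induction l generalizing i j with
  | nil => simp [Pw]
  | cons a l ih =>
    have hB : ∀ k, Differentiable ℂ (fun s => Bm s a i k) := by
      intro k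
      fin_cases a <;> fin_cases i <;> fin_cases k <;> simp [Bm]
    simp only [Pw_cons, Matrix.mul_apply]
    exact Differentiable.fun_sum fun k _ => (hB k).mul (ih k j)

theorem trace_three (M : Matrix (Fin 3) (Fin 3) ℂ) : M.trace = M 0 0 + M 1 1 + M 2 2 := by
  simp [Matrix.trace, Fin.sum_univ_three]

theorem differentiable_trace (l : List (Fin 3)) : Differentiable ℂ (fun s => (Pw s l).trace) := by
  simp only [trace_three]
  exact ((differentiable_Pw l 0 0).add (differentiable_Pw l 1 1)).add (differentiable_Pw l 2 2)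

theorem Small.trace {M : Matrix (Fin 3) (Fin 3) ℂ} (h : Small M) : ‖M.trace‖ ≤ 3 := by
  rw [Matrix.trace_eq_sum_roots_charpoly]
  have h1 : ∀ c ∈ M.charpoly.roots, ‖c‖ ≤ 1 := by
    intro c hc
    have hr : M.charpoly.IsRoot c := (Polynomial.mem_roots M.charpoly_monic.ne_zero).1 hc
    have hdet : (Matrix.scalar (Fin 3) c - M).det = 0 := by
      rw [← Matrix.eval_charpoly]; exact hr
    obtain ⟨v, hv, hv0⟩ := Matrix.exists_mulVec_eq_zero_iff.2 hdet
    refine h c v hv ?_
    rw [Matrix.sub_mulVec] at hv0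
    have : Matrix.scalar (Fin 3) c *ᵥ v = c • v := by
      ext i; simp [Matrix.scalar_apply, Matrix.mulVec_diagonal]
    rw [this] at hv0
    exact (sub_eq_zero.1 hv0).symm
  have h2 : Multiset.card M.charpoly.roots ≤ 3 := by
    refine (Polynomial.card_roots' _).trans ?_
    rw [Matrix.charpoly_natDegree_eq_dim]; simp
  have h3 : ∀ S : Multiset ℂ, (∀ c ∈ S, ‖c‖ ≤ 1) → ‖S.sum‖ ≤ Multiset.card S := by
    intro S
    induction S using Multiset.induction_on with
    | empty => simp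
    | cons a S ih =>
      intro hS
      rw [Multiset.sum_cons, Multiset.card_cons]
      have := ih fun c hc => hS c (Multiset.mem_cons_of_mem hc)
      have h0 := hS a (Multiset.mem_cons_self a S)
      push_cast
      linarith [norm_add_le a S.sum]
  have := h3 _ h1
  have h4 : ((Multiset.card M.charpoly.roots : ℕ) : ℝ) ≤ 3 := by exact_mod_cast h2
  linarith

/-- The characteristic equation of a `3 × 3` matrix. -/
theorem char_three (M : Matrix (Fin 3) (Fin 3) ℂ) {c : ℂ} {v : Fin 3 → ℂ} (hv : v ≠ 0)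
    (h : M *ᵥ v = c • v) :
    c ^ 3 = M.trace * c ^ 2 - (M.trace ^ 2 - (M * M).trace) / 2 * c + M.det := by
  have hd : (M - c • (1 : Matrix (Fin 3) (Fin 3) ℂ)).det = 0 := by
    apply Matrix.exists_mulVec_eq_zero_iff.1
    refine ⟨v, hv, ?_⟩
    rw [Matrix.sub_mulVec, Matrix.smul_mulVec, Matrix.one_mulVec, h, sub_self]
  rw [Matrix.det_fin_three] at hd
  simp only [Matrix.sub_apply, Matrix.smul_apply, Matrix.one_apply, smul_eq_mul] at hd
  simp only [Fin.isValue, if_true] at hd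
  simp only [trace_three, Matrix.mul_apply, Fin.sum_univ_three, Matrix.det_fin_three]
  have e1 : ((0 : Fin 3) = 1) = False := by simp
  have e2 : ((0 : Fin 3) = 2) = False := by simp
  have e3 : ((1 : Fin 3) = 0) = False := by simp
  have e4 : ((1 : Fin 3) = 2) = False := by simp
  have e5 : ((2 : Fin 3) = 0) = False := by simp
  have e6 : ((2 : Fin 3) = 1) = False := by simp
  simp only [e1, e2, e3, e4, e5, e6, if_false, mul_one, mul_zero, sub_zero] at hd
  linear_combination -hd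

/-- Bounded traces of all powers bound the eigenvalues. -/
theorem small_of_traces {M : Matrix (Fin 3) (Fin 3) ℂ} (ht : ∀ m, ‖(M ^ m).trace‖ ≤ 3)
    (hd : ∀ m, ‖(M ^ m).det‖ ≤ 1) : Small M := by
  intro c v hv h
  by_contra hc
  push Not at hc
  have hpow : ∀ m : ℕ, (M ^ m) *ᵥ v = c ^ m • v := by
    intro m
    induction m with
    | zero => simp
    | succ m ih =>
      rw [pow_succ, ← Matrix.mulVec_mulVec, h, Matrix.mulVec_smul, ih, smul_smul, pow_succ]
      congr 1; ring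
  obtain ⟨m, hm⟩ := pow_unbounded_of_one_lt 5 hc
  have h1 := char_three (M ^ m) hv (hpow m)
  set r := ‖c ^ m‖ with hr
  have hr5 : 5 < r := by rw [hr, norm_pow]; exact hm
  have h2 : r ^ 3 ≤ 3 * r ^ 2 + 6 * r + 1 := by
    have e : r ^ 3 = ‖(c ^ m) ^ 3‖ := by rw [norm_pow]
    rw [e, h1]
    have t1 := ht m
    have t2 : ‖(M ^ m * M ^ m).trace‖ ≤ 3 := by rw [← pow_add]; exact ht _
    have t3 := hd m
    have n1 : ‖(M ^ m).trace * (c ^ m) ^ 2‖ ≤ 3 * r ^ 2 := by
      rw [norm_mul, norm_pow]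
      exact mul_le_mul_of_nonneg_right t1 (by positivity)
    have n2 : ‖((M ^ m).trace ^ 2 - (M ^ m * M ^ m).trace) / 2 * c ^ m‖ ≤ 6 * r := by
      rw [norm_mul, norm_div]
      have : ‖(M ^ m).trace ^ 2 - (M ^ m * M ^ m).trace‖ ≤ 12 := by
        refine (norm_sub_le _ _).trans ?_
        rw [norm_pow]
        nlinarith [norm_nonneg ((M ^ m).trace)]
      have h2 : ‖(2 : ℂ)‖ = 2 := by simp
      rw [h2]
      have : ‖(M ^ m).trace ^ 2 - (M ^ m * M ^ m).trace‖ / 2 ≤ 6 := by linarith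
      exact mul_le_mul_of_nonneg_right this (by positivity)
    calc _ ≤ ‖(M ^ m).trace * (c ^ m) ^ 2 -
            ((M ^ m).trace ^ 2 - (M ^ m * M ^ m).trace) / 2 * c ^ m‖ + ‖(M ^ m).det‖ :=
          norm_add_le _ _
      _ ≤ ‖(M ^ m).trace * (c ^ m) ^ 2‖ +
            ‖((M ^ m).trace ^ 2 - (M ^ m * M ^ m).trace) / 2 * c ^ m‖ + ‖(M ^ m).det‖ := by
          gcongr; exact norm_sub_le _ _
      _ ≤ 3 * r ^ 2 + 6 * r + 1 := by linarith
  nlinarith [mul_pos (sub_pos.2 hr5) (sub_pos.2 hr5), sq_nonneg r]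

/-! ### The region -/

theorem cont_left : Continuous fun s : ℂ => s.im ^ 2 * (1 + ‖s‖ ^ 2) ^ 2 := by
  have h1 := Complex.continuous_im
  fun_prop

theorem cont_right : Continuous fun s : ℂ => 3 * (s.re ^ 2 * (1 - ‖s‖ ^ 2) ^ 2) := by
  have h1 := Complex.continuous_re
  fun_prop

theorem isOpen_Reg : IsOpen {s : ℂ | Reg s} := by
  apply IsOpen.inter
  · exact isOpen_lt continuous_const Complex.continuous_re
  apply IsOpen.inter
  · exact isOpen_lt continuous_norm continuous_const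
  · exact isOpen_lt cont_left cont_right

theorem bounded_Reg : Bornology.IsBounded {s : ℂ | Reg s} := by
  refine (Metric.isBounded_ball (x := (0 : ℂ)) (r := 1)).subset fun s hs => ?_
  rw [mem_ball_zero_iff]; exact hs.2.1

theorem closure_Reg {s : ℂ} (hs : s ∈ closure {s : ℂ | Reg s}) :
    0 ≤ s.re ∧ ‖s‖ ≤ 1 ∧ s.im ^ 2 * (1 + ‖s‖ ^ 2) ^ 2 ≤ 3 * (s.re ^ 2 * (1 - ‖s‖ ^ 2) ^ 2) := by
  have hcl : IsClosed {s : ℂ | 0 ≤ s.re ∧ ‖s‖ ≤ 1 ∧
      s.im ^ 2 * (1 + ‖s‖ ^ 2) ^ 2 ≤ 3 * (s.re ^ 2 * (1 - ‖s‖ ^ 2) ^ 2)} := by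
    apply IsClosed.inter
    · exact isClosed_le continuous_const Complex.continuous_re
    apply IsClosed.inter
    · exact isClosed_le continuous_norm continuous_const
    · exact isClosed_le cont_left cont_right
  have hsub : {s : ℂ | Reg s} ⊆ {s : ℂ | 0 ≤ s.re ∧ ‖s‖ ≤ 1 ∧
      s.im ^ 2 * (1 + ‖s‖ ^ 2) ^ 2 ≤ 3 * (s.re ^ 2 * (1 - ‖s‖ ^ 2) ^ 2)} :=
    fun s hs => ⟨hs.1.le, hs.2.1.le, hs.2.2.le⟩
  exact closure_minimal hsub hcl hs

theorem frontier_Reg {s : ℂ} (hs : s ∈ frontier {s : ℂ | Reg s}) : Ray s ∨ s = 0 ∨ s = 1 := by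
  rw [isOpen_Reg.frontier_eq] at hs
  obtain ⟨h1, h2, h3⟩ := closure_Reg hs.1
  have hn : ¬ Reg s := hs.2
  have hN : ‖s‖ ^ 2 = s.re ^ 2 + s.im ^ 2 := by
    rw [← Complex.normSq_eq_norm_sq, Complex.normSq_apply]; ring
  rcases h1.lt_or_eq with h1' | h1'
  · rcases h2.lt_or_eq with h2' | h2'
    · left
      refine ⟨h1', h2', ?_⟩
      by_contra hne
      exact hn ⟨h1', h2', lt_of_le_of_ne h3 hne⟩
    · right; right
      rw [h2'] at h3 hN
      have h0 : s.im = 0 := by nlinarith [sq_nonneg s.im]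
      rw [h0] at hN
      have : s.re = 1 := by nlinarith
      exact Complex.ext this h0
  · right; left
    rw [← h1'] at h3
    have h0 : s.im = 0 := by
      have : s.im ^ 2 * (1 + ‖s‖ ^ 2) ^ 2 ≤ 0 := by simpa using h3
      have h4 : 0 < (1 + ‖s‖ ^ 2) ^ 2 := by positivity
      have h5 : s.im ^ 2 ≤ 0 := by
        by_contra h
        push Not at h
        nlinarith [mul_pos h h4]
      nlinarith [sq_nonneg s.im]
    exact Complex.ext h1'.symm h0

/-- The curve, parametrised by `N = |s| ^ 2`. -/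
noncomputable def ray (N : ℝ) : ℂ :=
  ⟨Real.sqrt N * (1 + N) / (2 * Real.sqrt (1 - N + N ^ 2)),
    Real.sqrt N * (Real.sqrt 3 * (1 - N)) / (2 * Real.sqrt (1 - N + N ^ 2))⟩

theorem continuous_ray : Continuous ray := by
  have hP : ∀ N : ℝ, 0 < 1 - N + N ^ 2 := fun N => by nlinarith [sq_nonneg (N - 1)]
  have hne : ∀ N : ℝ, 2 * Real.sqrt (1 - N + N ^ 2) ≠ 0 := fun N => by
    have := Real.sqrt_pos.2 (hP N); positivity
  have h1 : Continuous fun N : ℝ => Real.sqrt N * (1 + N) / (2 * Real.sqrt (1 - N + N ^ 2)) :=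
    Continuous.div (by fun_prop) (by fun_prop) hne
  have h2 : Continuous fun N : ℝ =>
      Real.sqrt N * (Real.sqrt 3 * (1 - N)) / (2 * Real.sqrt (1 - N + N ^ 2)) :=
    Continuous.div (by fun_prop) (by fun_prop) hne
  have := Complex.equivRealProdCLM.symm.continuous.comp (h1.prodMk h2)
  exact this

theorem norm_ray {N : ℝ} (hN : 0 ≤ N) : ‖ray N‖ ^ 2 = N := by
  have hP : 0 < 1 - N + N ^ 2 := by nlinarith [sq_nonneg (N - 1)]
  rw [← Complex.normSq_eq_norm_sq, Complex.normSq_apply]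
  simp only [ray]
  have h1 := Real.sq_sqrt hN
  have h2 := Real.sq_sqrt hP.le
  have h3 : Real.sqrt 3 ^ 2 = 3 := Real.sq_sqrt (by norm_num)
  have h4 : Real.sqrt (1 - N + N ^ 2) ≠ 0 := (Real.sqrt_pos.2 hP).ne'
  field_simp
  rw [h1, h2, h3]; ring

theorem ray_mem {N : ℝ} (h0 : 0 < N) (h1 : N < 1) : Ray (ray N) := by
  have hP : 0 < 1 - N + N ^ 2 := by nlinarith [sq_nonneg (N - 1)]
  have hn := norm_ray h0.le
  refine ⟨?_, ?_, ?_⟩
  · simp only [ray]
    have := Real.sqrt_pos.2 h0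
    have := Real.sqrt_pos.2 hP
    positivity
  · have : ‖ray N‖ ^ 2 < 1 ^ 2 := by rw [hn]; simpa using h1
    exact lt_of_pow_lt_pow_left₀ 2 (by norm_num) this
  · rw [hn]
    simp only [ray]
    have h3 : Real.sqrt 3 ^ 2 = 3 := Real.sq_sqrt (by norm_num)
    rw [div_pow, div_pow, mul_pow, mul_pow, mul_pow, h3]
    ring

theorem closed_bound {f : ℂ → ℂ} (hf : Continuous f) (h : ∀ s, Ray s → ‖f s‖ ≤ 3) :
    ‖f 0‖ ≤ 3 ∧ ‖f 1‖ ≤ 3 := by
  have hg : Continuous fun N => f (ray N) := hf.comp continuous_ray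
  have hb : ∀ N ∈ Set.Ioo (0 : ℝ) 1, (fun N => f (ray N)) N ∈ Metric.closedBall (0 : ℂ) 3 := by
    intro N hN
    rw [mem_closedBall_zero_iff]
    exact h _ (ray_mem hN.1 hN.2)
  have hc : ∀ N ∈ Set.Icc (0 : ℝ) 1, ‖f (ray N)‖ ≤ 3 := by
    intro N hN
    have hcl : N ∈ closure (Set.Ioo (0 : ℝ) 1) := by
      rw [closure_Ioo (by norm_num)]; exact hN
    have hcp := (Metric.isClosed_closedBall (x := (0 : ℂ)) (ε := 3)).preimage hg
    have := closure_minimal hb hcp hcl
    exact mem_closedBall_zero_iff.1 this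
  have e0 : ray 0 = 0 := by
    apply Complex.ext <;> simp [ray]
  have e1 : ray 1 = 1 := by
    apply Complex.ext <;> simp [ray]
  constructor
  · have := hc 0 (by simp); rwa [e0] at this
  · have := hc 1 (by simp); rwa [e1] at this

section main

variable (hR : ∀ s, Ray s → ∀ l, Small (Pw s l))

include hR

theorem trace_bound {s : ℂ} (hs : Reg s) (l : List (Fin 3)) : ‖(Pw s l).trace‖ ≤ 3 := by
  have hf := differentiable_trace l
  have hb : ∀ s, Ray s → ‖(Pw s l).trace‖ ≤ 3 := fun s hs => (hR s hs l).trace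
  obtain ⟨b0, b1⟩ := closed_bound (f := fun s => (Pw s l).trace) hf.continuous hb
  refine Complex.norm_le_of_forall_mem_frontier_norm_le bounded_Reg
    (f := fun s => (Pw s l).trace) hf.diffContOnCl ?_ (subset_closure hs)
  intro z hz
  rcases frontier_Reg hz with h | h | h
  · exact hb z h
  · rw [h]; exact b0
  · rw [h]; exact b1

theorem small_Reg {s : ℂ} (hs : Reg s) (l : List (Fin 3)) : Small (Pw s l) := by
  apply small_of_traces
  · intro m
    rw [← Pw_replicate]
    exact trace_bound hR hs _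
  · intro m
    rw [← Pw_replicate]
    exact norm_det_Pw hs.2.1.le _

end main

/-- The function to which the Hurwitz argument is applied. -/
noncomputable def Fu (l : List (Fin 3)) (u s : ℂ) : ℂ :=
  (1 - u • Pw s l).det

theorem Fu_eq (l : List (Fin 3)) (u s : ℂ) : Fu l u s =
    1 - u * (Pw s l).trace + u ^ 2 * (((Pw s l).trace ^ 2 - (Pw s l * Pw s l).trace) / 2) -
      u ^ 3 * (Pw s l).det := by
  simp only [Fu, trace_three, Matrix.mul_apply, Fin.sum_univ_three, Matrix.det_fin_three,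
    Matrix.sub_apply, Matrix.smul_apply, smul_eq_mul, Matrix.one_apply]
  simp only [Fin.isValue, if_true]
  have e1 : ((0 : Fin 3) = 1) = False := by simp
  have e2 : ((0 : Fin 3) = 2) = False := by simp
  have e3 : ((1 : Fin 3) = 0) = False := by simp
  have e4 : ((1 : Fin 3) = 2) = False := by simp
  have e5 : ((2 : Fin 3) = 0) = False := by simp
  have e6 : ((2 : Fin 3) = 1) = False := by simp
  simp only [e1, e2, e3, e4, e5, e6, if_false, zero_sub]
  ring

theorem differentiable_Fu (l : List (Fin 3)) (u : ℂ) : Differentiable ℂ (fun s => Fu l u s) := by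
  have h := differentiable_Pw l
  simp only [Fu, Matrix.det_fin_three, Matrix.sub_apply, Matrix.smul_apply, smul_eq_mul]
  have h' : ∀ i j, Differentiable ℂ fun s =>
      (1 : Matrix (Fin 3) (Fin 3) ℂ) i j - u * Pw s l i j := fun i j => by
    have := h i j
    fun_prop
  have a := h'
  exact ((((((a 0 0).mul (a 1 1)).mul (a 2 2)).sub (((a 0 0).mul (a 1 2)).mul (a 2 1))).sub
    (((a 0 1).mul (a 1 0)).mul (a 2 2))).add (((a 0 1).mul (a 1 2)).mul (a 2 0))).add
    (((a 0 2).mul (a 1 0)).mul (a 2 1)) |>.sub (((a 0 2).mul (a 1 1)).mul (a 2 0))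

theorem continuous_Fu (l : List (Fin 3)) : Continuous (fun p : ℂ × ℂ => Fu l p.1 p.2) := by
  have h : ∀ i j, Continuous fun s => Pw s l i j := fun i j => (differentiable_Pw l i j).continuous
  simp only [Fu, Matrix.det_fin_three, Matrix.sub_apply, Matrix.smul_apply, smul_eq_mul]
  have h' : ∀ i j, Continuous fun p : ℂ × ℂ =>
      (1 : Matrix (Fin 3) (Fin 3) ℂ) i j - p.1 * Pw p.2 l i j := fun i j => by
    have := (h i j).comp continuous_snd (X := ℂ × ℂ)
    exact continuous_const.sub (continuous_fst.mul this)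
  have a := h'
  exact ((((((a 0 0).mul (a 1 1)).mul (a 2 2)).sub (((a 0 0).mul (a 1 2)).mul (a 2 1))).sub
    (((a 0 1).mul (a 1 0)).mul (a 2 2))).add (((a 0 1).mul (a 1 2)).mul (a 2 0))).add
    (((a 0 2).mul (a 1 0)).mul (a 2 1)) |>.sub (((a 0 2).mul (a 1 1)).mul (a 2 0))

theorem Fu_ne_zero {l : List (Fin 3)} {s : ℂ} (hS : Small (Pw s l)) {u : ℂ} (hu : ‖u‖ < 1) :
    Fu l u s ≠ 0 := by
  intro h
  obtain ⟨v, hv, hv0⟩ := Matrix.exists_mulVec_eq_zero_iff.2 h
  rw [Matrix.sub_mulVec, Matrix.one_mulVec, Matrix.smul_mulVec] at hv0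
  have h1 : v = u • (Pw s l *ᵥ v) := sub_eq_zero.1 hv0
  have hu0 : u ≠ 0 := by
    rintro rfl
    rw [zero_smul] at h1
    exact hv h1
  have h2 : Pw s l *ᵥ v = u⁻¹ • v := by
    conv_rhs => rw [h1]
    rw [smul_smul, inv_mul_cancel₀ hu0, one_smul]
  have := hS _ v hv h2
  rw [norm_inv] at this
  have hpos : 0 < ‖u‖ := norm_pos_iff.2 hu0
  have := (inv_le_one₀ hpos).1 this
  linarith

/-- **Sector principle.** -/
theorem sector_principle (hR : ∀ s, Ray s → ∀ l, Small (Pw s l)) (l : List (Fin 3)) :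
    (∀ s, Reg s → (1 - Pw s l).det ≠ 0) ∨ ∀ s, (1 - Pw s l).det = 0 := by
  by_contra hcon
  push Not at hcon
  obtain ⟨⟨s₀, hs₀, h0⟩, s₁, h1⟩ := hcon
  have hF1 : ∀ s, (1 - Pw s l).det = Fu l 1 s := fun s => by simp [Fu]
  rw [hF1] at h0 h1
  have hd := differentiable_Fu l 1
  have han : AnalyticOnNhd ℂ (fun s => Fu l 1 s) Set.univ := fun z _ => hd.analyticAt z
  rcases (han s₀ trivial).eventually_eq_zero_or_eventually_ne_zero with h | h
  · have := han.eqOn_of_preconnected_of_eventuallyEq (g := fun _ => 0) (fun z _ => analyticAt_const)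
      isPreconnected_univ (Set.mem_univ s₀) h
    exact h1 (this (Set.mem_univ s₁))
  · -- a small circle around `s₀`
    have hreg : ∀ᶠ z in 𝓝 s₀, Reg z := isOpen_Reg.mem_nhds hs₀
    have hne : ∀ᶠ z in 𝓝 s₀, z ≠ s₀ → Fu l 1 z ≠ 0 := eventually_nhdsWithin_iff.1 h
    obtain ⟨r, hr, hball⟩ := Metric.eventually_nhds_iff.1 (hreg.and hne)
    set ρ := r / 2 with hρ
    have hρ0 : 0 < ρ := by positivity
    have hcb : ∀ z ∈ Metric.closedBall s₀ ρ, Reg z ∧ (z ≠ s₀ → Fu l 1 z ≠ 0) := by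
      intro z hz
      apply hball
      rw [Metric.mem_closedBall] at hz
      linarith
    have hsph : IsCompact (Metric.sphere s₀ ρ) := isCompact_sphere _ _
    have hsne : (Metric.sphere s₀ ρ).Nonempty := NormedSpace.sphere_nonempty.2 hρ0.le
    have hc1 : ContinuousOn (fun z => ‖Fu l 1 z‖) (Metric.sphere s₀ ρ) :=
      hd.continuous.norm.continuousOn
    obtain ⟨z₁, hz₁, hmin⟩ := hsph.exists_isMinOn hsne hc1
    set m := ‖Fu l 1 z₁‖ with hm
    have hm0 : 0 < m := by
      apply norm_pos_iff.2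
      have hz := Metric.sphere_subset_closedBall hz₁
      refine (hcb z₁ hz).2 ?_
      rintro rfl
      rw [Metric.mem_sphere, dist_self] at hz₁
      linarith
    have hcF := continuous_Fu l
    have hev : ∀ᶠ u in 𝓝 (1 : ℂ), ∀ z ∈ Metric.sphere s₀ ρ, m / 2 < ‖Fu l u z‖ := by
      apply hsph.eventually_forall_of_forall_eventually
      intro z hz
      have h2 : m / 2 < ‖Fu l 1 z‖ := by
        have : m ≤ ‖Fu l 1 z‖ := hmin hz
        linarith
      exact (hcF.norm.tendsto (1, z)).eventually (lt_mem_nhds h2)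
    have hev2 : ∀ᶠ u in 𝓝 (1 : ℂ), ‖Fu l u s₀‖ < m / 2 := by
      have hcu : Continuous fun u : ℂ => ‖Fu l u s₀‖ :=
        (hcF.comp (continuous_id.prodMk continuous_const)).norm
      have h3 : ‖Fu l 1 s₀‖ < m / 2 := by rw [h0, norm_zero]; positivity
      exact (hcu.tendsto 1).eventually (gt_mem_nhds h3)
    obtain ⟨ε, hε, hu⟩ := Metric.eventually_nhds_iff.1 (hev.and hev2)
    -- choose `u` real, close to one, smaller than one
    set t : ℝ := 1 - min (ε / 2) (1 / 2) with ht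
    have ht1 : t < 1 := by
      have : 0 < min (ε / 2) (1 / 2) := by positivity
      linarith
    have ht0 : 0 < t := by
      have : min (ε / 2) (1 / 2) ≤ 1 / 2 := min_le_right _ _
      linarith
    have hdist : dist (t : ℂ) 1 < ε := by
      rw [Complex.dist_eq, show ((t : ℂ) - 1) = ((t - 1 : ℝ) : ℂ) by push_cast; ring,
        Complex.norm_real, Real.norm_eq_abs, abs_of_neg (by linarith)]
      have : min (ε / 2) (1 / 2) ≤ ε / 2 := min_le_left _ _
      linarith
    obtain ⟨hA, hB⟩ := hu hdist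
    have htn : ‖(t : ℂ)‖ < 1 := by
      rw [Complex.norm_real, Real.norm_eq_abs, abs_of_pos ht0]; exact ht1
    have hnz : ∀ z, Reg z → Fu l t z ≠ 0 := fun z hz => Fu_ne_zero (small_Reg hR hz l) htn
    have hdt := differentiable_Fu l t
    have hg : DiffContOnCl ℂ (fun z => (Fu l t z)⁻¹) (Metric.ball s₀ ρ) := by
      constructor
      · intro z hz
        exact ((hdt z).inv (hnz z (hcb z (Metric.ball_subset_closedBall hz)).1)).differentiableWithinAt
      · rw [closure_ball _ hρ0.ne']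
        intro z hz
        exact ((hdt z).continuousAt.inv₀ (hnz z (hcb z hz).1)).continuousWithinAt
    have hle := Complex.norm_le_of_forall_mem_frontier_norm_le Metric.isBounded_ball hg
      (C := 2 / m) (fun z hz => by
        rw [frontier_ball _ hρ0.ne'] at hz
        rw [norm_inv]
        have h4 := hA z hz
        rw [inv_le_comm₀ (by linarith [half_pos hm0]) (by positivity), inv_div]
        exact h4.le) (subset_closure (Metric.mem_ball_self hρ0))
    rw [norm_inv] at hle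
    have hpos : 0 < ‖Fu l t s₀‖ := norm_pos_iff.2 (hnz s₀ hs₀)
    rw [inv_le_comm₀ hpos (by positivity), inv_div] at hle
    linarith

/-- The gauge symmetry `s ↦ -s`. -/
theorem det_neg (s : ℂ) (l : List (Fin 3)) : (1 - Pw (-s) l).det = (1 - Pw s l).det := by
  set J : Matrix (Fin 3) (Fin 3) ℂ := !![1, 0, 0; 0, -1, 0; 0, 0, 1] with hJ
  have hJJ : J * J = 1 := by
    ext i j; fin_cases i <;> fin_cases j <;> simp [hJ, Matrix.mul_apply, Fin.sum_univ_three]
  have hB : ∀ a, Bm (-s) a * J = J * Bm s a := by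
    intro a
    fin_cases a <;> ext i j <;> fin_cases i <;> fin_cases j <;>
      simp [Bm, hJ, Matrix.mul_apply, Fin.sum_univ_three]
  have hP : Pw (-s) l * J = J * Pw s l := by
    induction l with
    | nil => simp [Pw]
    | cons a l ih =>
      rw [Pw_cons, Pw_cons, Matrix.mul_assoc, ih, ← Matrix.mul_assoc, hB, Matrix.mul_assoc]
  have h1 : (1 - Pw (-s) l) * J = J * (1 - Pw s l) := by
    rw [Matrix.sub_mul, Matrix.mul_sub, hP, Matrix.one_mul, Matrix.mul_one]
  have h2 := congrArg Matrix.det h1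
  rw [Matrix.det_mul, Matrix.det_mul, mul_comm] at h2
  have h3 : J.det ≠ 0 := by
    intro h
    have := congrArg Matrix.det hJJ
    rw [Matrix.det_mul, h, Matrix.det_one, zero_mul] at this
    exact zero_ne_one this
  exact mul_left_cancel₀ h3 h2

/-- The sector principle in terms of `z = 1/s - s`. -/
theorem sector_zero (hR : ∀ s, Ray s → ∀ l, Small (Pw s l)) (l : List (Fin 3)) :
    (∀ z : ℂ, z.im ^ 2 < 3 * z.re ^ 2 →
      ∃ s : ℂ, s ≠ 0 ∧ ‖s‖ < 1 ∧ s⁻¹ - s = z ∧ (1 - Pw s l).det ≠ 0) ∨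
    ∀ s, (1 - Pw s l).det = 0 := by
  rcases sector_principle hR l with h | h
  · left
    intro z hz
    have hre : z.re ≠ 0 := by
      intro h0; rw [h0] at hz; nlinarith [sq_nonneg z.im]
    obtain ⟨x, hx1, hxz⟩ := Pool.Agent.Helper76.Conway.exists_x hre
    have hx0 : x ≠ 0 := norm_pos_iff.1 (by linarith)
    set s := x⁻¹ with hs
    have hs0 : s ≠ 0 := inv_ne_zero hx0
    have hsx : s⁻¹ = x := by rw [hs, inv_inv]
    have hs1 : ‖s‖ < 1 := by
      rw [hs, norm_inv]; exact inv_lt_one_of_one_lt₀ hx1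
    refine ⟨s, hs0, hs1, by rw [hsx]; exact hxz, ?_⟩
    set N := ‖s‖ ^ 2 with hN
    have hN0 : 0 < N := by have := norm_pos_iff.2 hs0; positivity
    have hN1 : N < 1 := by rw [hN]; exact pow_lt_one₀ (norm_nonneg _) hs1 (by norm_num)
    have hNv : N = s.re ^ 2 + s.im ^ 2 := by
      rw [hN, ← Complex.normSq_eq_norm_sq, Complex.normSq_apply]; ring
    have e1 : z.re = s.re * (1 - N) / N := by
      rw [← hxz, ← hsx, Complex.sub_re, Complex.inv_re, Complex.normSq_eq_norm_sq, ← hN]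
      field_simp
    have e2 : z.im = -(s.im * (1 + N) / N) := by
      rw [← hxz, ← hsx, Complex.sub_im, Complex.inv_im, Complex.normSq_eq_norm_sq, ← hN]
      field_simp
      ring
    have key : s.im ^ 2 * (1 + N) ^ 2 < 3 * (s.re ^ 2 * (1 - N) ^ 2) := by
      rw [e1, e2] at hz
      have h3 : (-(s.im * (1 + N) / N)) ^ 2 = s.im ^ 2 * (1 + N) ^ 2 / N ^ 2 := by
        field_simp
      have h4 : 3 * (s.re * (1 - N) / N) ^ 2 = 3 * (s.re ^ 2 * (1 - N) ^ 2) / N ^ 2 := by
        field_simp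
      rw [h3, h4] at hz
      exact (div_lt_div_iff_of_pos_right (by positivity)).1 hz
    have hsre : s.re ≠ 0 := by
      intro h0; rw [h0] at key; nlinarith [mul_nonneg (sq_nonneg s.im) (sq_nonneg (1 + N))]
    rcases lt_or_gt_of_ne hsre with h5 | h5
    · rw [← neg_neg s, det_neg]
      refine h (-s) ⟨by simpa using h5, by simpa using hs1, ?_⟩
      rw [norm_neg, ← hN, Complex.neg_re, Complex.neg_im, neg_sq, neg_sq]
      exact key
    · exact h s ⟨h5, hs1, key⟩
  · right; exact h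

end Pool.Agent.Helper69.S4
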