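import Mathlib
import Pool.Agent.Helper69.S4.MaxPrin
import Pool.Agent.Helper8.S4.Def

/-!
# From a bounded semigroup on states to the spectral bound on the curve
-/

namespace Pool.Agent.Helper69.S4

open Matrix Complex Pool.Agent.Helper8.S4

/-- The state of a vector. -/
noncomputable def toSt (s : ℂ) (v : Fin 3 → ℂ) : St := ⟨v 0, s / (1 + s ^ 2) * v 1, v 2⟩

theorem toSt_Bm {s : ℂ} (hq : 1 + s ^ 2 ≠ 0) (c : Fin 3) (v : Fin 3 → ℂ) :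
    toSt s (Bm s c *ᵥ v) = step (s ^ 2) c (toSt s v) := by
  fin_cases c
  · simp only [step, toSt, S1]
    simp [Bm, Matrix.mulVec, dotProduct, Fin.sum_univ_three]
    field_simp
  · simp only [step, toSt, S2]
    simp [Bm, Matrix.mulVec, dotProduct, Fin.sum_univ_three]
    field_simp
    ring
  · simp only [step, toSt, S3]
    simp [Bm, Matrix.mulVec, dotProduct, Fin.sum_univ_three]
    field_simp
    ring

theorem toSt_Pw {s : ℂ} (hq : 1 + s ^ 2 ≠ 0) (l : List (Fin 3)) (v : Fin 3 → ℂ) :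
    toSt s (Pw s l *ᵥ v) = act (s ^ 2) l (toSt s v) := by
  induction l with
  | nil => simp [Pw, act]
  | cons c l ih =>
    rw [Pw_cons, ← Matrix.mulVec_mulVec, toSt_Bm hq, ih]
    rfl

theorem toSt_smul (s c : ℂ) (v : Fin 3 → ℂ) : (toSt s (c • v)).size = ‖c‖ * (toSt s v).size := by
  simp only [toSt, St.size, Pi.smul_apply, smul_eq_mul, norm_mul]; ring

theorem toSt_pos {s : ℂ} (hs0 : s ≠ 0) (hq : 1 + s ^ 2 ≠ 0) {v : Fin 3 → ℂ} (hv : v ≠ 0) :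
    0 < (toSt s v).size := by
  simp only [toSt, St.size]
  have h0 := norm_nonneg (v 0)
  have h1 := norm_nonneg (s / (1 + s ^ 2) * v 1)
  have h2 := norm_nonneg (v 2)
  by_contra hcon
  apply hv
  have e0 : v 0 = 0 := norm_eq_zero.1 (by linarith)
  have e1 : s / (1 + s ^ 2) * v 1 = 0 := norm_eq_zero.1 (by linarith)
  have e2 : v 2 = 0 := norm_eq_zero.1 (by linarith)
  have e1' : v 1 = 0 := (mul_eq_zero.1 e1).resolve_left (div_ne_zero hs0 hq)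
  ext k; fin_cases k
  · exact e0
  · exact e1'
  · exact e2

/-- A bounded semigroup has only eigenvalues of modulus at most one. -/
theorem small_of_bounded {s : ℂ} (hs0 : s ≠ 0) (hq : 1 + s ^ 2 ≠ 0)
    (h : ∃ K : ℝ, ∀ (l : List (Fin 3)) (x : St), (act (s ^ 2) l x).size ≤ K * x.size)
    (l : List (Fin 3)) : Small (Pw s l) := by
  obtain ⟨K, hK⟩ := h
  intro c v hv hcv
  by_contra hc
  push Not at hc
  have hpow : ∀ m : ℕ, (Pw s l ^ m) *ᵥ v = c ^ m • v := by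
    intro m
    induction m with
    | zero => simp
    | succ m ih =>
      rw [pow_succ, ← Matrix.mulVec_mulVec, hcv, Matrix.mulVec_smul, ih, smul_smul, pow_succ]
      congr 1; ring
  have hpos := toSt_pos hs0 hq hv
  obtain ⟨m, hm⟩ := pow_unbounded_of_one_lt K hc
  have h1 := hK (List.replicate m l).flatten (toSt s v)
  rw [← toSt_Pw hq, Pw_replicate, hpow, toSt_smul, norm_pow] at h1
  have := le_of_mul_le_mul_right h1 hpos
  linarith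

/-! ### The curve in terms of `q` -/

theorem Ray.ne_zero {s : ℂ} (h : Ray s) : s ≠ 0 := by
  rintro rfl
  have := h.1
  simp at this

theorem Ray.Q_pos {s : ℂ} (h : Ray s) : 0 < ‖s‖ ^ 2 := by
  have := norm_pos_iff.2 h.ne_zero
  positivity

theorem Ray.Q_lt {s : ℂ} (h : Ray s) : ‖s‖ ^ 2 < 1 :=
  pow_lt_one₀ (norm_nonneg _) h.2.1 (by norm_num)

theorem Ray.normSq_q {s : ℂ} : normSq (s ^ 2) = (‖s‖ ^ 2) ^ 2 := by
  rw [Complex.normSq_eq_norm_sq, norm_pow]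

theorem Ray.e1_ne {s : ℂ} (h : Ray s) : 1 + s ^ 2 ≠ 0 := by
  intro h0
  have h1 : s ^ 2 = -1 := by linear_combination h0
  have h2 : ‖s ^ 2‖ = 1 := by rw [h1]; simp
  rw [norm_pow] at h2
  exact absurd h2 h.Q_lt.ne

theorem Ray.e3_ne {s : ℂ} (h : Ray s) : 1 + s ^ 2 + (s ^ 2) ^ 2 ≠ 0 := by
  intro h0
  have h1 : (s ^ 2) ^ 3 = 1 := by linear_combination (s ^ 2 - 1) * h0
  have h2 : ‖s ^ 2‖ ^ 3 = 1 := by rw [← norm_pow, h1]; simp
  rw [norm_pow] at h2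
  have := pow_lt_one₀ (n := 3) (by positivity) h.Q_lt (by norm_num)
  linarith

/-- On the curve `q = Q (U - V j) / (2 D)` with `j ^ 2 = -3`. -/
theorem Ray.sq_eq {s : ℂ} (h : Ray s) : ∃ σ : ℝ, (σ = 1 ∨ σ = -1) ∧
    s ^ 2 = ((‖s‖ ^ 2 : ℝ) : ℂ) *
      (((-1 + 4 * ‖s‖ ^ 2 - (‖s‖ ^ 2) ^ 2 : ℝ) : ℂ) -
        ((1 - (‖s‖ ^ 2) ^ 2 : ℝ) : ℂ) * (((σ * Real.sqrt 3 : ℝ) : ℂ) * I)) /
      (2 * ((1 - ‖s‖ ^ 2 + (‖s‖ ^ 2) ^ 2 : ℝ) : ℂ)) := by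
  set Q := ‖s‖ ^ 2 with hQ
  have hQ0 : 0 < Q := h.Q_pos
  have hQ1 : Q < 1 := h.Q_lt
  have hQv : Q = s.re ^ 2 + s.im ^ 2 := by
    rw [hQ, ← Complex.normSq_eq_norm_sq, Complex.normSq_apply]; ring
  have hR := h.2.2
  rw [← hQ] at hR
  have hD : 0 < 1 - Q + Q ^ 2 := by nlinarith [sq_nonneg (Q - 1)]
  have hx : s.re ^ 2 = Q * (1 + Q) ^ 2 / (4 * (1 - Q + Q ^ 2)) := by
    rw [eq_div_iff (by positivity)]
    have : s.im ^ 2 = Q - s.re ^ 2 := by linarith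
    rw [this] at hR
    linear_combination -hR
  have hy : s.im ^ 2 = 3 * Q * (1 - Q) ^ 2 / (4 * (1 - Q + Q ^ 2)) := by
    rw [eq_div_iff (by positivity)]
    have : s.re ^ 2 = Q - s.im ^ 2 := by linarith
    rw [this] at hR
    linear_combination hR
  have h3 : Real.sqrt 3 ^ 2 = 3 := Real.sq_sqrt (by norm_num)
  have hxy : (2 * s.re * s.im) ^ 2 = (Real.sqrt 3 * (Q * (1 - Q ^ 2) / (2 * (1 - Q + Q ^ 2)))) ^ 2 := by
    rw [mul_pow, mul_pow, hx, hy, mul_pow, h3]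
    field_simp
    ring
  have hre : (s ^ 2).re = Q * (-1 + 4 * Q - Q ^ 2) / (2 * (1 - Q + Q ^ 2)) := by
    have : (s ^ 2).re = s.re ^ 2 - s.im ^ 2 := by simp [pow_two]
    rw [this, hx, hy]
    field_simp
    ring
  have him : (s ^ 2).im = 2 * s.re * s.im := by simp [pow_two]; ring
  have key : ∀ σ : ℝ, (s ^ 2).im = -(σ * (Real.sqrt 3 * (Q * (1 - Q ^ 2) / (2 * (1 - Q + Q ^ 2))))) →
      s ^ 2 = ((Q : ℝ) : ℂ) * (((-1 + 4 * Q - Q ^ 2 : ℝ) : ℂ) -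
        ((1 - Q ^ 2 : ℝ) : ℂ) * (((σ * Real.sqrt 3 : ℝ) : ℂ) * I)) /
      (2 * ((1 - Q + Q ^ 2 : ℝ) : ℂ)) := by
    intro σ hσ
    have e : ((Q : ℝ) : ℂ) * (((-1 + 4 * Q - Q ^ 2 : ℝ) : ℂ) -
        ((1 - Q ^ 2 : ℝ) : ℂ) * (((σ * Real.sqrt 3 : ℝ) : ℂ) * I)) /
      (2 * ((1 - Q + Q ^ 2 : ℝ) : ℂ)) =
        ((Q * (-1 + 4 * Q - Q ^ 2) / (2 * (1 - Q + Q ^ 2)) : ℝ) : ℂ) +
        ((-(σ * (Real.sqrt 3 * (Q * (1 - Q ^ 2) / (2 * (1 - Q + Q ^ 2))))) : ℝ) : ℂ) * I := by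
      have hDc : ((1 - Q + Q ^ 2 : ℝ) : ℂ) ≠ 0 := by exact_mod_cast hD.ne'
      push_cast at hDc ⊢
      field_simp
      ring
    rw [e, ← hre, ← hσ, Complex.re_add_im]
  rcases sq_eq_sq_iff_eq_or_eq_neg.1 hxy with h5 | h5
  · refine ⟨-1, Or.inr rfl, key (-1) ?_⟩
    rw [him, h5]; ring
  · refine ⟨1, Or.inl rfl, key 1 ?_⟩
    rw [him, h5]; ring

/-- The spectral bound on the curve from the transitions and the inequalities. -/
theorem hR_of (hT : TransitionsTarget) (w : ℝ → Wt) (hw : ∀ Q, 0 < Q → Q < 1 → (w Q).Pos)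
    (hL : ∀ s, Ray s → LMI (s ^ 2) (‖s‖ ^ 2) (w (‖s‖ ^ 2))) :
    ∀ s, Ray s → ∀ l, Small (Pw s l) := fun s h l =>
  small_of_bounded h.ne_zero h.e1_ne
    (hT (s ^ 2) (‖s‖ ^ 2) (w (‖s‖ ^ 2)) h.Q_pos h.Q_lt Ray.normSq_q h.e1_ne h.e3_ne
      (hw _ h.Q_pos h.Q_lt) (hL s h)) l

end Pool.Agent.Helper69.S4
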