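import Mathlib
import Pool.Agent.Helper69.S4.Bridge
import Pool.Agent.Helper29.S4.Trans
import Pool.Agent.Helper8.S4.Lmi

/-!
# The spectral bound on the curve for all words on four strands
-/

namespace Pool.Agent.Helper69.S4

open Pool.Agent.Helper8.S4

/-- On the curve `arg (1/s - s) = ± 60°` all eigenvalues of all products of the reduced Burau
matrices of the four-strand braid group have modulus at most one. -/
theorem spectral : ∀ s, Ray s → ∀ l, Small (Pw s l) :=
  hR_of Pool.Agent.Helper29.S4.transitions wt (fun _ h0 h1 => wt_pos h0 h1) fun s h => by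
    obtain ⟨σ, hσ, hq⟩ := h.sq_eq
    have h3 : Real.sqrt 3 ^ 2 = 3 := Real.sq_sqrt (by norm_num)
    have ht : (σ * Real.sqrt 3) ^ 2 = 3 := by
      rw [mul_pow, h3]
      rcases hσ with rfl | rfl <;> norm_num
    refine lmi (‖s‖ ^ 2) (σ * Real.sqrt 3) h.Q_pos h.Q_lt ht (s ^ 2) ?_
    rw [hq]
    push_cast
    ring

end Pool.Agent.Helper69.S4
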