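import Mathlib
import Pool.Agent.Helper69.S4.Spectral

/-!
# Colourings of the columns of a cyclic positive word on at most four strands

`s ≠ 0`, `‖s‖ < 1` and `z = 1/s - s` in the open sector `|arg z| < 60°` (or `|arg (-z)| < 60°`).
A colouring of the columns `0, …, n + 1` of a cyclic word in the letters `0, …, n - 1`
(`v t j` is the colour of the column `j` at the time `t`; the letter `a` changes the column `a + 1`
from `S` to `N`, and `N + s² S = s W + s E`) is a combination of `s ^ j` and `s⁻¹ ^ j`.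
-/

namespace Pool.Agent.Helper69.S4

open Matrix Complex

theorem Bm_zero (a : Fin 3) : Bm 0 a = Matrix.diagonal (fun i => if i = a then (0 : ℂ) else 1) := by
  fin_cases a <;> ext i j <;> fin_cases i <;> fin_cases j <;> simp [Bm, Matrix.diagonal]

theorem Pw_zero (l : List (Fin 3)) :
    Pw 0 l = Matrix.diagonal (fun i => if i ∈ l then (0 : ℂ) else 1) := by
  induction l with
  | nil => simp [Pw]
  | cons a l ih =>
    rw [Pw_cons, ih, Bm_zero, Matrix.diagonal_mul_diagonal]
    congr 1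
    ext i
    by_cases h1 : i = a <;> by_cases h2 : i ∈ l <;> simp [h1, h2]

/-- The parameter of the sector. -/
structure Sec (s : ℂ) : Prop where
  ne : s ≠ 0
  lt : ‖s‖ < 1
  sec : (s⁻¹ - s).im ^ 2 < 3 * (s⁻¹ - s).re ^ 2

/-- Zero-free sector for words in which every letter occurs. -/
theorem det_ne_zero {l : List (Fin 3)} (hl : ∀ a, a ∈ l) {s : ℂ} (hs : Sec s) :
    (1 - Pw s l).det ≠ 0 := by
  rcases sector_zero spectral l with h | h
  · obtain ⟨t, ht0, ht1, htz, hdet⟩ := h _ hs.sec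
    have h1 : (s - t) * (1 + s * t) = 0 := by
      have h2 : (t⁻¹ - t) * (s * t) = (s⁻¹ - s) * (s * t) := by rw [htz]
      have hs0 := hs.ne
      have h3 : t⁻¹ * t = 1 := inv_mul_cancel₀ ht0
      have h4 : s⁻¹ * s = 1 := inv_mul_cancel₀ hs0
      linear_combination h2 - s * h3 + t * h4
    rcases mul_eq_zero.1 h1 with h5 | h5
    · rw [sub_eq_zero] at h5
      rw [h5]
      exact hdet
    · exfalso
      have h6 : s * t = -1 := by linear_combination h5
      have h7 : ‖s * t‖ < 1 := by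
        rw [norm_mul]
        exact mul_lt_one_of_nonneg_of_lt_one_left (norm_nonneg _) hs.lt ht1.le
      rw [h6] at h7
      simp at h7
  · exfalso
    have h0 := h 0
    rw [Pw_zero] at h0
    simp [hl] at h0

/-! ### Colourings -/

/-- `v` is a colouring of the columns `0, …, n + 1` along the word `w`. -/
def Steps (s : ℂ) (n : ℕ) (w : List ℕ) (v : ℕ → ℕ → ℂ) : Prop :=
  ∀ t (h : t < w.length), (∀ j ≤ n + 1, j ≠ w[t] + 1 → v (t + 1) j = v t j) ∧
    v (t + 1) (w[t] + 1) + s ^ 2 * v t (w[t] + 1) = s * (v t w[t] + v t (w[t] + 2))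

theorem Steps.cons {s : ℂ} {n a : ℕ} {w : List ℕ} {v : ℕ → ℕ → ℂ} (h : Steps s n (a :: w) v) :
    Steps s n w (fun t => v (t + 1)) := by
  intro t ht
  exact h (t + 1) (by simpa using ht)

theorem Steps.combo {s : ℂ} (hs : s ≠ 0) {n : ℕ} {w : List ℕ} (α β : ℂ) :
    Steps s n w (fun _ j => α * s ^ j + β * s⁻¹ ^ j) := by
  intro t ht
  refine ⟨fun j _ _ => rfl, ?_⟩
  have h : s * s⁻¹ = 1 := mul_inv_cancel₀ hs
  generalize w[t] = a
  simp only
  rw [pow_succ s⁻¹ a, pow_add s a 2, pow_add s⁻¹ a 2, pow_succ s a]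
  linear_combination (β * s⁻¹ ^ a * (s - s⁻¹)) * h

theorem Steps.sub {s : ℂ} {n : ℕ} {w : List ℕ} {v u : ℕ → ℕ → ℂ} (hv : Steps s n w v)
    (hu : Steps s n w u) : Steps s n w (fun t j => v t j - u t j) := by
  intro t ht
  obtain ⟨h1, h2⟩ := hv t ht
  obtain ⟨h3, h4⟩ := hu t ht
  refine ⟨fun j hj hj' => ?_, ?_⟩
  · simp only
    rw [h1 j hj hj', h3 j hj hj']
  · simp only
    linear_combination h2 - h4

/-- The outer columns are constant. -/
theorem Steps.const {s : ℂ} {n : ℕ} {w : List ℕ} {v : ℕ → ℕ → ℂ} (hv : Steps s n w v) {j : ℕ}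
    (hj : j ≤ n + 1) (hw : ∀ a ∈ w, j ≠ a + 1) : ∀ t ≤ w.length, v t j = v 0 j := by
  intro t
  induction t with
  | zero => intro _; rfl
  | succ t ih =>
    intro ht
    rw [(hv t (by omega)).1 j hj (hw _ (List.getElem_mem _)), ih (by omega)]

/-- The vector of the three inner columns. -/
def vec3 (x : ℕ → ℂ) : Fin 3 → ℂ := ![x 1, x 2, x 3]

theorem vec3_step {s : ℂ} {a : ℕ} (ha : a < 3) {x y : ℕ → ℂ} (hx0 : x 0 = 0) (hx4 : x 4 = 0)
    (h1 : ∀ j ≤ 4, j ≠ a + 1 → y j = x j)
    (h2 : y (a + 1) + s ^ 2 * x (a + 1) = s * (x a + x (a + 2))) :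
    vec3 y = Bm s ⟨a, ha⟩ *ᵥ vec3 x := by
  have h3 : y (a + 1) = -s ^ 2 * x (a + 1) + s * (x a + x (a + 2)) := by linear_combination h2
  have ha' : a = 0 ∨ a = 1 ∨ a = 2 := by omega
  rcases ha' with rfl | rfl | rfl
  · have e2 := h1 2 (by norm_num) (by norm_num)
    have e3 := h1 3 (by norm_num) (by norm_num)
    simp only [zero_add] at h3
    ext i
    fin_cases i
    · simp [vec3, Bm, Matrix.mulVec, dotProduct, Fin.sum_univ_three, h3, hx0]
    · simp [vec3, Bm, Matrix.mulVec, dotProduct, Fin.sum_univ_three, e2]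
    · simp [vec3, Bm, Matrix.mulVec, dotProduct, Fin.sum_univ_three, e3]
  · have e1 := h1 1 (by norm_num) (by norm_num)
    have e3 := h1 3 (by norm_num) (by norm_num)
    norm_num at h3
    ext i
    fin_cases i
    · simp [vec3, Bm, Matrix.mulVec, dotProduct, Fin.sum_univ_three, e1]
    · simp [vec3, Bm, Matrix.mulVec, dotProduct, Fin.sum_univ_three, h3]
      ring
    · simp [vec3, Bm, Matrix.mulVec, dotProduct, Fin.sum_univ_three, e3]
  · have e1 := h1 1 (by norm_num) (by norm_num)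
    have e2 := h1 2 (by norm_num) (by norm_num)
    norm_num at h3
    ext i
    fin_cases i
    · simp [vec3, Bm, Matrix.mulVec, dotProduct, Fin.sum_univ_three, e1]
    · simp [vec3, Bm, Matrix.mulVec, dotProduct, Fin.sum_univ_three, e2]
    · simp [vec3, Bm, Matrix.mulVec, dotProduct, Fin.sum_univ_three, h3, hx4]
      ring

theorem vec3_word {s : ℂ} : ∀ (w : List ℕ) (_ : ∀ a ∈ w, a < 3) (v : ℕ → ℕ → ℂ),
    (∀ t ≤ w.length, v t 0 = 0) → (∀ t ≤ w.length, v t 4 = 0) → Steps s 3 w v →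
    ∃ l : List (Fin 3), l.map Fin.val = w.reverse ∧ vec3 (v w.length) = Pw s l *ᵥ vec3 (v 0)
  | [], _, v, _, _, _ => ⟨[], by simp, by simp [Pw]⟩
  | a :: w, hw, v, h0, h4, hv => by
    obtain ⟨l, hl, h⟩ := vec3_word w (fun b hb => hw b (List.mem_cons_of_mem _ hb))
      (fun t => v (t + 1)) (fun t ht => h0 (t + 1) (by simpa using ht))
      (fun t ht => h4 (t + 1) (by simpa using ht)) hv.cons
    have ha : a < 3 := hw a (by simp)
    refine ⟨l ++ [⟨a, ha⟩], by simp [hl], ?_⟩
    obtain ⟨h1, h2⟩ := hv 0 (by simp)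
    simp only [List.getElem_cons_zero, zero_add] at h1 h2
    have h3 : vec3 (v (0 + 1)) = Bm s ⟨a, ha⟩ *ᵥ vec3 (v 0) := by
      rw [zero_add]
      exact vec3_step ha (h0 0 (by simp)) (h4 0 (by simp)) h1 h2
    rw [List.length_cons, Pw_append, ← Matrix.mulVec_mulVec]
    rw [h, h3]
    simp [Pw]

/-- If the outer colours vanish then everything vanishes. -/
theorem colour4_zero {s : ℂ} (hs : Sec s) {w : List ℕ} (hw : ∀ a ∈ w, a < 3)
    (hf : ∀ a < 3, a ∈ w) {v : ℕ → ℕ → ℂ} (hv : Steps s 3 w v)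
    (hper : ∀ j ≤ 4, v w.length j = v 0 j) (h0 : v 0 0 = 0) (h4 : v 0 4 = 0) :
    ∀ t ≤ w.length, ∀ j ≤ 4, v t j = 0 := by
  have h0' : ∀ t ≤ w.length, v t 0 = 0 := fun t ht => by
    rw [hv.const (by omega) (fun a _ => by omega) t ht, h0]
  have h4' : ∀ t ≤ w.length, v t 4 = 0 := fun t ht => by
    rw [hv.const (by omega) (fun a ha => by have := hw a ha; omega) t ht, h4]
  obtain ⟨l, hl, hP⟩ := vec3_word w hw v h0' h4' hv
  have hl' : ∀ a, a ∈ l := by
    intro a
    have h1 : a.val ∈ w.reverse := List.mem_reverse.2 (hf a.val a.2)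
    rw [← hl] at h1
    obtain ⟨b, hb, hab⟩ := List.mem_map.1 h1
    rwa [← Fin.ext hab]
  have hdet := det_ne_zero hl' hs
  have hz : vec3 (v 0) = 0 := by
    have h1 : vec3 (v w.length) = vec3 (v 0) := by
      simp [vec3, hper 1 (by norm_num), hper 2 (by norm_num), hper 3 (by norm_num)]
    have h2 : (1 - Pw s l) *ᵥ vec3 (v 0) = 0 := by
      rw [Matrix.sub_mulVec, Matrix.one_mulVec, ← hP, h1, sub_self]
    by_contra hne
    exact hdet (Matrix.exists_mulVec_eq_zero_iff.1 ⟨_, hne, h2⟩)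
  have hstart : ∀ j ≤ 4, v 0 j = 0 := by
    have e1 := congrFun hz 0
    have e2 := congrFun hz 1
    have e3 := congrFun hz 2
    simp [vec3] at e1 e2 e3
    intro j hj
    interval_cases j <;> assumption
  intro t
  induction t with
  | zero => intro _; exact hstart
  | succ t ih =>
    intro ht j hj
    obtain ⟨h1, h2⟩ := hv t (by omega)
    have ha := hw _ (List.getElem_mem (l := w) (n := t) (by omega))
    have ih' := ih (by omega)
    by_cases hja : j = w[t] + 1
    · rw [hja]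
      rw [ih' (w[t] + 1) (by omega), ih' w[t] (by omega), ih' (w[t] + 2) (by omega)] at h2
      simpa using h2
    · rw [h1 j hj hja, ih' j hj]

theorem pow_ne_one' {s : ℂ} (hs : Sec s) {k : ℕ} (hk : k ≠ 0) : s ^ k ≠ 1 := by
  intro h
  have h1 : ‖s ^ k‖ < 1 := by
    rw [norm_pow]
    exact pow_lt_one₀ (norm_nonneg _) hs.lt hk
  rw [h] at h1
  simp at h1

/-- Interpolation of the colours of two columns. -/
theorem exists_combo {s : ℂ} (hs : Sec s) {i j : ℕ} (hij : i < j) (x y : ℂ) :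
    ∃ α β : ℂ, α * s ^ i + β * s⁻¹ ^ i = x ∧ α * s ^ j + β * s⁻¹ ^ j = y := by
  have hs0 := hs.ne
  have hi : s ^ i ≠ 0 := pow_ne_zero _ hs0
  obtain ⟨k, rfl⟩ := Nat.exists_eq_add_of_lt hij
  set m := k + 1 with hm
  have hmk : i + k + 1 = i + m := by omega
  rw [hmk]
  have hsm : s ^ m ≠ 0 := pow_ne_zero _ hs0
  have hd : 1 - (s ^ m) ^ 2 ≠ 0 := by
    rw [← pow_mul]
    exact sub_ne_zero.2 (pow_ne_one' hs (by omega)).symm
  rw [inv_pow, inv_pow, pow_add]
  clear_value m
  generalize s ^ m = b at hsm hd ⊢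
  generalize s ^ i = a at hi ⊢
  refine ⟨(x - b * y) / (a * (1 - b ^ 2)), a * b * (y - b * x) / (1 - b ^ 2), ?_, ?_⟩
  · field_simp
    ring
  · field_simp
    ring

/-- **Colourings of a cyclic word on `n + 1` strands are combinations of `s ^ j`, `s⁻¹ ^ j`.** -/
def Col (s : ℂ) (n : ℕ) : Prop :=
  ∀ w : List ℕ, (∀ a ∈ w, a < n) → (∀ a < n, a ∈ w) → ∀ v : ℕ → ℕ → ℂ, Steps s n w v →
    (∀ j ≤ n + 1, v w.length j = v 0 j) →
      ∃ α β : ℂ, ∀ t ≤ w.length, ∀ j ≤ n + 1, v t j = α * s ^ j + β * s⁻¹ ^ j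

/-- Four strands. -/
theorem colour4 {s : ℂ} (hs : Sec s) : Col s 3 := by
  intro w hw hf v hv hper
  obtain ⟨α, β, h0, h4⟩ := exists_combo hs (show 0 < 4 by norm_num) (v 0 0) (v 0 4)
  refine ⟨α, β, fun t ht j hj => ?_⟩
  have h := colour4_zero hs hw hf (hv.sub (Steps.combo hs.ne (n := 3) (w := w) α β))
    (fun j hj => by rw [hper j hj]) (by rw [h0, sub_self])
    (by rw [h4, sub_self]) t ht j hj
  exact sub_eq_zero.1 h

/-- Fewer strands. -/
theorem Col.down {s : ℂ} (hs : s ≠ 0) {n : ℕ} (h : Col s (n + 1)) : Col s n := by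
  intro w hw hf v hv hper
  set L := w.length with hL
  set K : ℂ := (1 + s ^ 2) / s * v L (n + 1) - v L n with hK
  set v' : ℕ → ℕ → ℂ := fun t j => if j = n + 2 then K else if t ≤ L then v t j else v L j with hv'
  have e1 : ∀ t ≤ L, ∀ j ≤ n + 1, v' t j = v t j := by
    intro t ht j hj
    simp only [hv']
    rw [if_neg (by omega), if_pos ht]
  have e2 : ∀ t, v' t (n + 2) = K := by
    intro t
    simp only [hv']
    rw [if_pos trivial]
  have e3 : ∀ j ≤ n + 1, v' (L + 1) j = v L j := by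
    intro j hj
    simp only [hv']
    rw [if_neg (by omega), if_neg (by omega)]
  have hlen : (w ++ [n]).length = L + 1 := by simp [hL]
  obtain ⟨α, β, hc⟩ := h (w ++ [n])
    (fun a ha => by
      rcases List.mem_append.1 ha with h1 | h1
      · have := hw a h1; omega
      · have := List.mem_singleton.1 h1; omega)
    (fun a ha => by
      rcases Nat.lt_succ_iff_lt_or_eq.1 ha with h1 | h1
      · exact List.mem_append_left _ (hf a h1)
      · rw [h1]; simp)
    v' (by
      intro t ht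
      rw [hlen] at ht
      rcases Nat.lt_succ_iff_lt_or_eq.1 ht with h1 | h1
      · have hg : (w ++ [n])[t]'(by rw [hlen]; omega) = w[t] := List.getElem_append_left h1
        rw [hg]
        have ha := hw _ (List.getElem_mem (l := w) (n := t) h1)
        obtain ⟨h2, h3⟩ := hv t h1
        refine ⟨fun j hj hj' => ?_, ?_⟩
        · rcases Nat.lt_or_ge j (n + 2) with h4 | h4
          · rw [e1 t (by omega) j (by omega), e1 (t + 1) (by omega) j (by omega)]
            exact h2 j (by omega) hj'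
          · have : j = n + 2 := by omega
            rw [this, e2, e2]
        · rw [e1 (t + 1) (by omega) _ (by omega), e1 t (by omega) _ (by omega),
            e1 t (by omega) _ (by omega), e1 t (by omega) _ (by omega)]
          exact h3
      · subst h1
        have hg : (w ++ [n])[w.length]'(by simp) = n := by simp
        rw [hg]
        refine ⟨fun j hj hj' => ?_, ?_⟩
        · rcases Nat.lt_or_ge j (n + 2) with h4 | h4
          · rw [e1 _ le_rfl j (by omega), e3 j (by omega)]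
          · have : j = n + 2 := by omega
            rw [this, e2, e2]
        · rw [e3 _ le_rfl, e1 _ le_rfl _ le_rfl, e1 _ le_rfl _ (by omega), e2, hK]
          field_simp
          ring)
    (by
      intro j hj
      rw [hlen]
      rcases Nat.lt_or_ge j (n + 2) with h4 | h4
      · rw [e3 j (by omega), e1 0 (by omega) j (by omega)]
        exact hper j (by omega)
      · have : j = n + 2 := by omega
        rw [this, e2, e2])
  refine ⟨α, β, fun t ht j hj => ?_⟩
  rw [← e1 t ht j hj]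
  exact hc t (by rw [hlen]; omega) j (by omega)

/-- At most four strands. -/
theorem colour {s : ℂ} (hs : Sec s) {n : ℕ} (hn : n ≤ 3) : Col s n := by
  have h3 := colour4 hs
  have h2 := h3.down hs.ne
  have h1 := h2.down hs.ne
  have h0 := h1.down hs.ne
  interval_cases n <;> assumption

/-! ### The mirrored relation -/

/-- `v` is a colouring of the columns with the relation `S + s² N = s W + s E`. -/
def StepsR (s : ℂ) (n : ℕ) (w : List ℕ) (v : ℕ → ℕ → ℂ) : Prop :=
  ∀ t (h : t < w.length), (∀ j ≤ n + 1, j ≠ w[t] + 1 → v (t + 1) j = v t j) ∧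
    v t (w[t] + 1) + s ^ 2 * v (t + 1) (w[t] + 1) = s * (v t w[t] + v t (w[t] + 2))

theorem StepsR.reverse {s : ℂ} {n : ℕ} {w : List ℕ} {v : ℕ → ℕ → ℂ} (hw : ∀ a ∈ w, a < n)
    (h : StepsR s n w v) : Steps s n w.reverse (fun t => v (w.length - t)) := by
  intro t ht
  rw [List.length_reverse] at ht
  have hg : (w.reverse)[t]'(by rw [List.length_reverse]; exact ht) =
      w[w.length - 1 - t]'(by omega) := List.getElem_reverse _
  rw [hg]
  obtain ⟨h1, h2⟩ := h (w.length - 1 - t) (by omega)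
  have ha := hw _ (List.getElem_mem (l := w) (n := w.length - 1 - t) (by omega))
  have e1 : w.length - 1 - t + 1 = w.length - t := by omega
  have e2 : w.length - (t + 1) = w.length - 1 - t := by omega
  rw [e1] at h1 h2
  refine ⟨fun j hj hj' => ?_, ?_⟩
  · simp only
    rw [e2]
    exact (h1 j hj hj').symm
  · simp only
    rw [e2, h1 (w[w.length - 1 - t]'(by omega)) (by omega) (by omega),
      h1 (w[w.length - 1 - t]'(by omega) + 2) (by omega) (by omega)]
    exact h2

/-- The mirrored statement. -/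
theorem colourR {s : ℂ} (hs : Sec s) {n : ℕ} (hn : n ≤ 3) {w : List ℕ} (hw : ∀ a ∈ w, a < n)
    (hf : ∀ a < n, a ∈ w) {v : ℕ → ℕ → ℂ} (hv : StepsR s n w v)
    (hper : ∀ j ≤ n + 1, v w.length j = v 0 j) :
    ∃ α β : ℂ, ∀ t ≤ w.length, ∀ j ≤ n + 1, v t j = α * s ^ j + β * s⁻¹ ^ j := by
  obtain ⟨α, β, h⟩ := colour hs hn w.reverse (fun a ha => hw a (List.mem_reverse.1 ha))
    (fun a ha => List.mem_reverse.2 (hf a ha)) _ (hv.reverse hw) (by
      intro j hj
      simp only [List.length_reverse, Nat.sub_self, Nat.sub_zero]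
      exact (hper j hj).symm)
  refine ⟨α, β, fun t ht j hj => ?_⟩
  have := h (w.length - t) (by rw [List.length_reverse]; omega) j hj
  rwa [Nat.sub_sub_self ht] at this

/-! ### The T-shape -/

/-- The T-shape: `A` is two-sided, `B₁`, `B₂` on one side, `D` on the other side. Letters: `0` is a
crossing of `B₁` and `A`, `1` a crossing of `A` and `D`, `2` a crossing of `A` and `B₂`. Columns: `0`
is the cap of `B₁`, `1` the column between `B₁` and `A`, `2` the column between `A` and `D`, `3` the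
column between `B₂` and `A`, `4` the cap of `B₂`; `f` is the face touching `A`, `B₁` and `B₂`, `d`
the cap of `D`. At every time at most one of the columns `1` and `3` differs from `f`, so the colour
on the left of a crossing of `A` and `D` is `v 1 + v 3 - f`. -/
def StepsT (s f d : ℂ) (w : List ℕ) (v : ℕ → ℕ → ℂ) : Prop :=
  ∀ t (h : t < w.length), (∀ j ≤ 4, j ≠ w[t] + 1 → v (t + 1) j = v t j) ∧
    (w[t] = 0 → v (t + 1) 1 + s ^ 2 * v t 1 = s * (v t 0 + v t 2)) ∧
    (w[t] = 1 → v (t + 1) 2 + s ^ 2 * v t 2 = s * ((v t 1 + v t 3 - f) + d)) ∧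
    (w[t] = 2 → v (t + 1) 3 + s ^ 2 * v t 3 = s * (v t 2 + v t 4))

/-- The colours of the trivial colouring of the T-shape. -/
def kT : ℕ → ℕ
  | 0 => 0
  | 1 => 1
  | 2 => 2
  | 3 => 1
  | _ => 0

theorem colourT {s : ℂ} (hs : Sec s) {w : List ℕ} (hw : ∀ a ∈ w, a < 3) (hf : ∀ a < 3, a ∈ w)
    {f d : ℂ} {v : ℕ → ℕ → ℂ} (hv : StepsT s f d w v) (hper : ∀ j ≤ 4, v w.length j = v 0 j)
    {t₀ : ℕ} (ht₀ : t₀ ≤ w.length) (h1 : v t₀ 1 = f) (h3 : v t₀ 3 = f) :
    ∃ α β : ℂ, f = α * s + β * s⁻¹ ∧ d = α * s ^ 3 + β * s⁻¹ ^ 3 ∧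
      ∀ t ≤ w.length, ∀ j ≤ 4, v t j = α * s ^ kT j + β * s⁻¹ ^ kT j := by
  obtain ⟨α, β, hα, hβ⟩ := exists_combo hs (show 1 < 3 by norm_num) f d
  rw [pow_one, pow_one] at hα
  refine ⟨α, β, hα.symm, hβ.symm, ?_⟩
  set u : ℕ → ℕ → ℂ := fun t j => v t j - (α * s ^ kT j + β * s⁻¹ ^ kT j) with hu
  have hss : s * s⁻¹ = 1 := mul_inv_cancel₀ hs.ne
  have hst : Steps s 3 w u := by
    intro t ht
    obtain ⟨g1, g2, g3, g4⟩ := hv t ht
    have ha := hw _ (List.getElem_mem (l := w) (n := t) ht)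
    refine ⟨fun j hj hj' => ?_, ?_⟩
    · simp only [hu]
      rw [g1 j hj hj']
    · have hc : w[t] = 0 ∨ w[t] = 1 ∨ w[t] = 2 := by omega
      rcases hc with h | h | h
      · have g := g2 h
        rw [h]
        simp only [hu, kT, zero_add]
        linear_combination g - (β * (s - s⁻¹)) * hss
      · have g := g3 h
        rw [h]
        simp only [hu, kT]
        rw [← hα, ← hβ] at g
        linear_combination g - (β * s⁻¹ * (s - s⁻¹)) * hss
      · have g := g4 h
        rw [h]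
        simp only [hu, kT]
        linear_combination g - (β * (s - s⁻¹)) * hss
  obtain ⟨α', β', hc⟩ := colour4 hs w hw hf u hst (fun j hj => by
    simp only [hu]; rw [hper j hj])
  have c1 := hc t₀ ht₀ 1 (by norm_num)
  have c3 := hc t₀ ht₀ 3 (by norm_num)
  simp only [hu, kT] at c1 c3
  rw [h1] at c1
  rw [h3] at c3
  rw [← hα] at c1 c3
  simp only [pow_one, sub_self] at c1 c3
  have hq : s ^ 2 ≠ 1 := pow_ne_one' hs (by norm_num)
  have hq' : s ^ 4 ≠ 1 := pow_ne_one' hs (by norm_num)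
  have hs0 := hs.ne
  have e1 : α' * (s ^ 4 - 1) = 0 := by
    have : α' * (s ^ 4 - 1) = 0 := by
      have k1 : β' * s⁻¹ = -(α' * s) := by linear_combination -c1
      have k3 : β' * s⁻¹ ^ 3 = -(α' * s ^ 3) := by linear_combination -c3
      have k4 : β' = -(α' * s ^ 2) := by
        have : β' = β' * s⁻¹ * s := by field_simp
        rw [this, k1]; ring
      have k5 : β' = -(α' * s ^ 6) := by
        have : β' = β' * s⁻¹ ^ 3 * s ^ 3 := by field_simp
        rw [this, k3]; ring
      have k6 : α' * s ^ 2 = α' * s ^ 6 := by linear_combination k4 - k5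
      have k7 : s ^ 2 * (α' * (s ^ 4 - 1)) = 0 := by linear_combination -k6
      rcases mul_eq_zero.1 k7 with h | h
      · exact absurd h (pow_ne_zero _ hs0)
      · exact h
    exact this
  have e2 : α' = 0 := (mul_eq_zero.1 e1).resolve_right (sub_ne_zero.2 hq')
  have e3 : β' = 0 := by
    rw [e2, zero_mul, zero_add] at c1
    exact (mul_eq_zero.1 c1.symm).resolve_right (inv_ne_zero hs0)
  intro t ht j hj
  have := hc t ht j hj
  rw [e2, e3, zero_mul, zero_mul, add_zero] at this
  exact sub_eq_zero.1 this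

end Pool.Agent.Helper69.S4
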