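import Pool.Agent.Helper43.PD.Plane
import Pool.Agent.Helper60.PD.Full
import Pool.Agent.Helper69.S4.Colour
import Pool.Agent.Helper76.Conway.Parity

/-!
# From the colourings of the faces to log-concavity and the sector (project S4)
-/

set_option autoImplicit false

namespace Pool.Agent.Helper69.S4

open Polynomial Pool.Agent.Helper85.Exp Pool.Agent.Helper60.EV2 Pool.Agent.Helper2.PD
  Pool.Agent.Helper16.PD Pool.Agent.Helper43.Pln

variable {P : Type} {G : Sh P}

/-- `c` is a colouring of the faces: `N + s² S = s W + s E` at every crossing. -/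
def FCol (G : Sh P) (s : ℂ) (c : Face G → ℂ) : Prop :=
  ∀ p, G.lf p = true →
    c (Rf G p) + s ^ 2 * c (Lf G (G.nxt.symm p)) = s * (c (Lf G p) + c (Rf G (G.op p)))

/-- All colourings are combinations of `s ^ κ` and `s ^ (-κ)`. -/
def Triv (G : Sh P) (s : ℂ) : Prop :=
  ∀ κ : Face G → ℤ, (∀ i, κ (Lf G i) = κ (Rf G i) + 1) → ∀ c : Face G → ℂ, FCol G s c →
    ∃ α β : ℂ, ∀ f, c f = α * s ^ κ f + β * s ^ (-κ f)

/-- Every `z` in the open sector is `1/s - s`. -/
theorem exists_Sec {z : ℂ} (hz : z.im ^ 2 < 3 * z.re ^ 2) : ∃ s : ℂ, Sec s ∧ s⁻¹ - s = z := by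
  have hre : z.re ≠ 0 := by
    intro h0; rw [h0] at hz; nlinarith [sq_nonneg z.im]
  obtain ⟨x, hx1, hxz⟩ := Pool.Agent.Helper76.Conway.exists_x hre
  have hx0 : x ≠ 0 := norm_pos_iff.1 (by linarith)
  have e : x⁻¹⁻¹ - x⁻¹ = z := by rw [inv_inv]; exact hxz
  refine ⟨x⁻¹, ⟨inv_ne_zero hx0, ?_, ?_⟩, e⟩
  · rw [norm_inv]; exact inv_lt_one_of_one_lt₀ hx1
  · rw [e]; exact hz

/-- A colouring which vanishes on two faces separated by an edge vanishes. -/
theorem Triv.zero {s : ℂ} (hs : Sec s) (h : Triv G s) {κ : Face G → ℤ}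
    (hκ : ∀ i, κ (Lf G i) = κ (Rf G i) + 1) {c : Face G → ℂ} (hc : FCol G s c) {i : P}
    (h1 : c (Lf G i) = 0) (h2 : c (Rf G i) = 0) : ∀ f, c f = 0 := by
  obtain ⟨α, β, hab⟩ := h κ hκ c hc
  have hs0 := hs.ne
  rw [hab] at h1 h2
  rw [hκ i] at h1
  set k := κ (Rf G i) with hk
  have e1 : s ^ (k + 1) = s ^ k * s := by rw [zpow_add₀ hs0, zpow_one]
  have e2 : s ^ (-(k + 1)) = s ^ (-k) * s⁻¹ := by
    rw [neg_add, zpow_add₀ hs0, zpow_neg_one]
  rw [e1, e2] at h1
  have e3 : s ^ k ≠ 0 := zpow_ne_zero _ hs0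
  have e4 : s ^ (-k) ≠ 0 := zpow_ne_zero _ hs0
  have hss : s * s⁻¹ = 1 := mul_inv_cancel₀ hs0
  have hq : s ^ 2 ≠ 1 := pow_ne_one' hs (by norm_num)
  have e5 : α * s ^ k * (s ^ 2 - 1) = 0 := by
    linear_combination s * h1 - h2 - β * s ^ (-k) * hss
  have hα : α = 0 := by
    rcases mul_eq_zero.1 e5 with h | h
    · exact (mul_eq_zero.1 h).resolve_right e3
    · exact absurd (sub_eq_zero.1 h) hq
  have hβ : β = 0 := by
    rw [hα, zero_mul, zero_add] at h2
    exact (mul_eq_zero.1 h2).resolve_right e4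
  intro f
  rw [hab, hα, hβ, zero_mul, zero_mul, add_zero]

/-- The Conway polynomial does not vanish at `1/s - s` if all colourings are trivial. -/
theorem nab_ne_zero [Fintype P] (hG : Plane G) {nab : Dg G → ℤ[X]} (hn : Cs nab) {s : ℂ}
    (hs : Sec s) (h : Triv G s) : aeval (s⁻¹ - s) (nab (allPos G)) ≠ 0 := by
  classical
  intro hz
  obtain ⟨b⟩ := nonempty_of hG
  obtain ⟨κ, hκ⟩ := exists_kappa hG.conn hG.cross hG.genus
  obtain ⟨A, hA⟩ : ∃ A : Fa G (Face G), A = faceFa G hG.cross := ⟨_, rfl⟩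
  have hAL : ∀ p, A.L p = Lf G p := fun p => by rw [hA]; rfl
  have hAR : ∀ p, A.R p = Rf G p := fun p => by rw [hA]; rfl
  obtain ⟨ε⟩ : Nonempty (Cr G ≃ A.Fr b) := by
    rw [hA]
    exact Pool.Agent.Helper60.PD.exists_eq hG.conn hG.cross hG.genus b
  let _ : Fintype (Face G) := Fintype.ofFinite _
  obtain ⟨c, hc1, hc2⟩ := Pool.Agent.Helper60.PD.nab_dehn A hG.conn κ
    (fun p => by rw [hAL, hAR]; exact hκ p) b ε
  have h1 := hc2 nab hn ℂ (Units.mk0 s hs.ne) (allPos G)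
  rw [Units.val_inv_eq_inv_val, Units.val_mk0, hz] at h1
  have hc0 : ((c : ℤ) : ℂ) ≠ 0 := by
    rcases hc1 with rfl | rfl <;> norm_num
  have hdet := (mul_eq_zero.1 h1.symm).resolve_left hc0
  obtain ⟨v, hv0, hv⟩ := Matrix.exists_mulVec_eq_zero_iff.2 hdet
  set col : Face G → ℂ := fun f =>
    if h : f ≠ A.L (G.nxt.symm b) ∧ f ≠ A.R (G.nxt.symm b) then v (ε.symm ⟨f, h⟩) else 0 with hcol
  have hcolε : ∀ y, col (ε y).1 = v y := by
    intro y
    simp only [hcol]
    rw [dif_pos (ε y).2]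
    congr 1
    exact ε.symm_apply_apply y
  have hoff : ∀ f, ¬ (f ≠ A.L (G.nxt.symm b) ∧ f ≠ A.R (G.nxt.symm b)) → col f = 0 := by
    intro f hf
    simp only [hcol]
    rw [dif_neg hf]
  have hL : col (Lf G (G.nxt.symm b)) = 0 := hoff _ (by rw [hAL]; exact fun h => h.1 rfl)
  have hR : col (Rf G (G.nxt.symm b)) = 0 := hoff _ (by rw [hAR]; exact fun h => h.2 rfl)
  have hrow : ∀ x : Cr G, ∑ f : Face G, A.dn s s⁻¹ (allPos G) x f * col f = 0 := by
    intro x
    have h2 := congrFun hv x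
    simp only [Matrix.mulVec, dotProduct, Matrix.of_apply, Pi.zero_apply] at h2
    have h3 : ∀ y : Cr G, A.dn s s⁻¹ (allPos G) x (ε y).1 * v y =
        A.dn s s⁻¹ (allPos G) x (ε y).1 * col (ε y).1 := by
      intro y; rw [hcolε]
    have h4 : ∑ y : Cr G, A.dn s s⁻¹ (allPos G) x (ε y).1 * v y = 0 := h2
    rw [Finset.sum_congr rfl fun y _ => h3 y,
      Equiv.sum_comp ε fun f : A.Fr b => A.dn s s⁻¹ (allPos G) x f.1 * col f.1] at h4
    rw [← h4, ← Finset.sum_subtype (Finset.univ.filter fun f : Face G =>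
        f ≠ A.L (G.nxt.symm b) ∧ f ≠ A.R (G.nxt.symm b)) (fun f => by simp)
        fun f : Face G => A.dn s s⁻¹ (allPos G) x f * col f]
    symm
    refine Finset.sum_subset (Finset.filter_subset _ _) fun f _ hf => ?_
    rw [hoff f (fun h => hf (Finset.mem_filter.2 ⟨Finset.mem_univ _, h⟩)), mul_zero]
  have hF : FCol G s col := by
    intro p hp
    have h2 := hrow ⟨p, hp⟩
    have h3 : ∀ f, A.dn s s⁻¹ (allPos G) ⟨p, hp⟩ f =
        (if A.R p = f then s⁻¹ else 0) + (if A.L (G.nxt.symm p) = f then s else 0) -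
          (if A.L p = f then 1 else 0) - if A.R (G.op p) = f then 1 else 0 := fun f => rfl
    simp only [h3, sub_mul, add_mul, ite_mul, zero_mul, one_mul, Finset.sum_sub_distrib,
      Finset.sum_add_distrib, Finset.sum_ite_eq, Finset.mem_univ, if_true] at h2
    rw [hAR, hAL, hAL, hAR] at h2
    have hss : s * s⁻¹ = 1 := mul_inv_cancel₀ hs.ne
    linear_combination s * h2 - col (Rf G p) * hss
  have h5 := h.zero hs hκ hF hL hR
  apply hv0
  ext y
  rw [← hcolε, h5]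
  rfl

/-- (I3) Log-concavity from the sector. -/
theorem lc_of_sector [Fintype P] (G : Sh P) (hG : Plane G) (nab : Dg G → ℤ[X]) (hn : Cs nab)
    (H : nab (allPos G) = 0 ∨
      ∀ z : ℂ, aeval z (nab (allPos G)) = 0 → 3 * z.re ^ 2 ≤ z.im ^ 2) : LogConcave G nab := by
  classical
  have hz : nab (allPos G) ≠ 0 →
      ∀ z : ℂ, aeval z (nab (allPos G)) = 0 → 3 * z.re ^ 2 ≤ z.im ^ 2 :=
    fun h0 => H.resolve_left h0
  refine fun k => lc_int (fun i => ?_) _ k
  obtain ⟨b⟩ := nonempty_of hG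
  have hpar : ∃ L : ℕ, ∀ j, (j + L) % 2 = 1 → (nab (allPos G)).coeff j = 0 := by
    by_cases h0 : ∃ m, (nab (allPos G)).coeff m ≠ 0
    · obtain ⟨m, hm⟩ := h0
      refine ⟨m, fun j hj => ?_⟩
      by_contra hj0
      have := parity (hn.cw b) (allPos G) (fun i _ => Or.inl rfl) hm hj0
      omega
    · push Not at h0
      exact ⟨0, fun j _ => h0 j⟩
  obtain ⟨L, hL⟩ := hpar
  have h1 := Pool.Agent.Helper76.Conway.logConcave_main (nab (allPos G)) L hL hz
    ((i + 2 : ℕ) : ℤ)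
  have e1 : Pool.Agent.Helper76.Conway.cz (nab (allPos G)) (((i + 2 : ℕ) : ℤ) + 2) =
      (nab (allPos G)).coeff (i + 4) := by
    unfold Pool.Agent.Helper76.Conway.cz
    rw [if_pos (by omega)]
    congr 1
  have e2 : Pool.Agent.Helper76.Conway.cz (nab (allPos G)) (((i + 2 : ℕ) : ℤ) - 2) =
      (nab (allPos G)).coeff i := by
    unfold Pool.Agent.Helper76.Conway.cz
    rw [if_pos (by omega)]
    congr 1
    omega
  have e3 : Pool.Agent.Helper76.Conway.cz (nab (allPos G)) ((i + 2 : ℕ) : ℤ) =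
      (nab (allPos G)).coeff (i + 2) := by
    unfold Pool.Agent.Helper76.Conway.cz
    rw [if_pos (by omega)]
    congr 1
  rw [e1, e2, e3] at h1
  linarith

/-- (I1) The zeros of a polynomial from the certificate. -/
theorem zeros_of (Q : ℤ[X]) (l : List (Fin 3)) (H : ∀ s : ℂ, s ≠ 0 → ‖s‖ < 1 →
      (aeval (s⁻¹ - s) Q = 0 ↔ (1 - Pw s l).det = 0)) :
    Q = 0 ∨ ∀ z : ℂ, aeval z Q = 0 → 3 * z.re ^ 2 ≤ z.im ^ 2 := by
  rcases sector_zero spectral l with h1 | h1
  · right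
    intro z hz
    by_contra hcon
    push Not at hcon
    obtain ⟨s, hs0, hs1, hsz, hdet⟩ := h1 z hcon
    apply hdet
    rw [← H s hs0 hs1, hsz]
    exact hz
  · left
    have key : ∀ s : ℂ, s ≠ 0 → ‖s‖ < 1 → aeval (s⁻¹ - s) Q = 0 := fun s h0 h2 =>
      (H s h0 h2).2 (h1 s)
    set QC : ℂ[X] := Q.map (Int.castRingHom ℂ) with hQC
    have hroot : ∀ z : ℂ, aeval z Q = 0 → QC.IsRoot z := by
      intro z hz
      rw [Polynomial.IsRoot, hQC, Polynomial.eval_map]
      exact hz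
    have hQC0 : QC = 0 := by
      apply Polynomial.eq_zero_of_infinite_isRoot
      apply Set.infinite_of_injective_forall_mem (f := fun k : ℕ =>
        (((((k : ℝ) + 2) - ((k : ℝ) + 2)⁻¹ : ℝ)) : ℂ))
      · intro a b hab
        have hab' : ((a : ℝ) + 2) - ((a : ℝ) + 2)⁻¹ = ((b : ℝ) + 2) - ((b : ℝ) + 2)⁻¹ :=
          Complex.ofReal_injective hab
        have ha : (0 : ℝ) < (a : ℝ) + 2 := by positivity
        have hb : (0 : ℝ) < (b : ℝ) + 2 := by positivity
        rcases lt_trichotomy a b with h5 | h5 | h5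
        · have h6 : (a : ℝ) < b := by exact_mod_cast h5
          have h7 : ((b : ℝ) + 2)⁻¹ ≤ ((a : ℝ) + 2)⁻¹ := inv_anti₀ ha (by linarith)
          linarith
        · exact h5
        · have h6 : (b : ℝ) < a := by exact_mod_cast h5
          have h7 : ((a : ℝ) + 2)⁻¹ ≤ ((b : ℝ) + 2)⁻¹ := inv_anti₀ hb (by linarith)
          linarith
      · intro k
        apply hroot
        have hk : (0 : ℝ) < (k : ℝ) + 2 := by positivity
        have h8 := key ((((k : ℝ) + 2)⁻¹ : ℝ) : ℂ) (by exact_mod_cast (inv_pos.2 hk).ne') (by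
          rw [Complex.norm_real, Real.norm_eq_abs, abs_of_pos (inv_pos.2 hk)]
          exact inv_lt_one_of_one_lt₀ (by linarith [(Nat.cast_nonneg k : (0 : ℝ) ≤ k)]))
        have e : (((((k : ℝ) + 2) - ((k : ℝ) + 2)⁻¹ : ℝ)) : ℂ) =
            ((((k : ℝ) + 2)⁻¹ : ℝ) : ℂ)⁻¹ - ((((k : ℝ) + 2)⁻¹ : ℝ) : ℂ) := by
          push_cast
          rw [inv_inv]
        rw [e]
        exact h8
    exact (Polynomial.map_eq_zero_iff (RingHom.injective_int _)).1 hQC0

/-- **The final step.** If in the whole sector all colourings are trivial, then all zeros of the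
Conway polynomial satisfy `3 (Re z)² ≤ (Im z)²`, and the inequality of Q1 holds. -/
theorem main_of [Fintype P] (hG : Plane G) (h : ∀ s, Sec s → Triv G s) {nab : Dg G → ℤ[X]}
    (hn : Cs nab) : LogConcave G nab ∧
      ∀ z : ℂ, aeval z (nab (allPos G)) = 0 → 3 * z.re ^ 2 ≤ z.im ^ 2 := by
  have hz : ∀ z : ℂ, aeval z (nab (allPos G)) = 0 → 3 * z.re ^ 2 ≤ z.im ^ 2 := by
    intro z hz
    by_contra hcon
    push Not at hcon
    obtain ⟨s, hs, rfl⟩ := exists_Sec hcon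
    exact nab_ne_zero hG hn hs (h s hs) hz
  exact ⟨lc_of_sector G hG nab hn (Or.inr hz), hz⟩

end Pool.Agent.Helper69.S4
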