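import Mathlib
import Pool.Agent.Helper69.S4.MaxPrin
import Pool.Agent.Helper76.Conway.Parity
import Pool.Agent.Helper99.ZB.Zero

/-!
# From the spectral bound on the curve to the theorem on positive braids on four strands
-/

namespace Pool.Agent.Helper69.S4

open Matrix Complex Polynomial Pool.Agent.Helper76.Conway Pool.Agent.Helper76.Conway.Top

theorem Bm_eq (s : ℂ) (a : Fin 3) : Pool.Agent.Helper99.ZB.Bm s 3 a = Bm s a := by
  ext i j
  fin_cases a <;> fin_cases i <;> fin_cases j <;>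
    simp [Pool.Agent.Helper99.ZB.Bm, Pool.Agent.Helper99.ZB.Pm, Pool.Agent.Helper99.ZB.del,
      Pool.Agent.Helper99.ZB.ell, Bm, Matrix.vecMulVec_apply]

theorem W_eq (s : ℂ) (l : List (Fin 3)) :
    Pool.Agent.Helper99.ZB.W s 3 (l.map Fin.val) = Pw s l := by
  unfold Pool.Agent.Helper99.ZB.W Pw
  rw [List.map_map]
  congr 1
  apply List.map_congr_left
  intro a _
  exact Bm_eq s a

theorem exists_fin {w : List ℕ} (hw : ∀ a ∈ w, a < 3) : ∃ l : List (Fin 3), w = l.map Fin.val := by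
  induction w with
  | nil => exact ⟨[], rfl⟩
  | cons a w ih =>
    obtain ⟨l, hl⟩ := ih fun b hb => hw b (List.mem_cons_of_mem _ hb)
    exact ⟨⟨a, hw a (by simp)⟩ :: l, by simp [← hl]⟩

section

variable {G : ℕ → Type} [∀ n, Group (G n)] {sg : ∀ n, ℕ → G n} {N : ∀ n, G n → ℤ[X]}

/-- The zeros of the Conway polynomial of a positive four-strand word. -/
theorem zeros4 (hR : ∀ s, Ray s → ∀ l, Small (Pw s l)) (h : Mk G sg N) {w : List ℕ}
    (hw : ∀ a ∈ w, a < 3) (hne : N 3 (V (sg 3) w) ≠ 0) {z : ℂ}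
    (hz : aeval z (N 3 (V (sg 3) w)) = 0) : 3 * z.re ^ 2 ≤ z.im ^ 2 := by
  by_contra hcon
  push Not at hcon
  obtain ⟨l, rfl⟩ := exists_fin hw
  rcases sector_zero hR l with h1 | h1
  · obtain ⟨s, hs0, hs1, hsz, hdet⟩ := h1 z hcon
    have h2 := Pool.Agent.Helper99.ZB.eval_eq h hs0 hs1 3 _ hw
    rw [hsz, hz, zero_mul, zero_mul, W_eq] at h2
    exact hdet h2.symm
  · apply hne
    set P := N 3 (V (sg 3) (l.map Fin.val)) with hP
    have key : ∀ s : ℂ, s ≠ 0 → ‖s‖ < 1 → aeval (s⁻¹ - s) P = 0 := by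
      intro s hs0 hs1
      have h2 := Pool.Agent.Helper99.ZB.eval_eq h hs0 hs1 3 _ hw
      rw [W_eq, h1 s, ← hP] at h2
      have hU := Pool.Agent.Helper99.ZB.U_ne_zero hs1 hs0 3
      have h3 := (mul_eq_zero.1 h2).resolve_right hU
      exact (mul_eq_zero.1 h3).resolve_right (pow_ne_zero _ hs0)
    set PC : ℂ[X] := P.map (Int.castRingHom ℂ) with hPC
    have hroot : ∀ z : ℂ, aeval z P = 0 → PC.IsRoot z := by
      intro z hz
      rw [Polynomial.IsRoot, hPC, Polynomial.eval_map]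
      exact hz
    have hPC0 : PC = 0 := by
      apply Polynomial.eq_zero_of_infinite_isRoot
      apply Set.infinite_of_injective_forall_mem (f := fun k : ℕ =>
        (((((k : ℝ) + 2) - ((k : ℝ) + 2)⁻¹ : ℝ)) : ℂ))
      · intro a b hab
        have hab' : ((a : ℝ) + 2) - ((a : ℝ) + 2)⁻¹ = ((b : ℝ) + 2) - ((b : ℝ) + 2)⁻¹ :=
          Complex.ofReal_injective hab
        have ha : (0 : ℝ) < (a : ℝ) + 2 := by positivity
        have hb : (0 : ℝ) < (b : ℝ) + 2 := by positivity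
        rcases lt_trichotomy a b with h5 | h5 | h5
        · have h6 : (a : ℝ) < b := by exact_mod_cast h5
          have h7 : ((b : ℝ) + 2)⁻¹ ≤ ((a : ℝ) + 2)⁻¹ := inv_anti₀ ha (by linarith)
          linarith
        · exact h5
        · have h6 : (b : ℝ) < a := by exact_mod_cast h5
          have h7 : ((a : ℝ) + 2)⁻¹ ≤ ((b : ℝ) + 2)⁻¹ := inv_anti₀ hb (by linarith)
          linarith
      · intro k
        apply hroot
        have hk : (0 : ℝ) < (k : ℝ) + 2 := by positivity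
        have h8 := key ((((k : ℝ) + 2)⁻¹ : ℝ) : ℂ) (by exact_mod_cast (inv_pos.2 hk).ne') (by
          rw [Complex.norm_real, Real.norm_eq_abs, abs_of_pos (inv_pos.2 hk)]
          exact inv_lt_one_of_one_lt₀ (by linarith [(Nat.cast_nonneg k : (0 : ℝ) ≤ k)]))
        have e : (((((k : ℝ) + 2) - ((k : ℝ) + 2)⁻¹ : ℝ)) : ℂ) =
            ((((k : ℝ) + 2)⁻¹ : ℝ) : ℂ)⁻¹ - ((((k : ℝ) + 2)⁻¹ : ℝ) : ℂ) := by
          push_cast
          rw [inv_inv]
        rw [e]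
        exact h8
    exact (Polynomial.map_eq_zero_iff (RingHom.injective_int _)).1 hPC0

theorem parity4 (h : Mk G sg N) {w : List ℕ} (hw : ∀ a ∈ w, a < 3) :
    ∃ L : ℕ, ∀ j, (j + L) % 2 = 1 → (N 3 (V (sg 3) w)).coeff j = 0 := by
  by_cases hf : ∀ a < 3, a ∈ w
  · obtain ⟨μ, -, h2⟩ := h.topC 3 w hw hf
    exact ⟨μ, h2.par⟩
  · push Not at hf
    obtain ⟨a, ha, haw⟩ := hf
    refine ⟨0, fun j _ => ?_⟩
    rw [h.zero_of_missing 3 w hw a ha haw]
    simp

/-- Log-concavity and the zero-free sector for a positive four-strand word. -/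
theorem main4 (hR : ∀ s, Ray s → ∀ l, Small (Pw s l)) (h : Mk G sg N) {w : List ℕ}
    (hw : ∀ a ∈ w, a < 3) :
    (∀ j : ℤ, cz (N 3 (V (sg 3) w)) (j + 2) * cz (N 3 (V (sg 3) w)) (j - 2) ≤
      cz (N 3 (V (sg 3) w)) j ^ 2) ∧
    (N 3 (V (sg 3) w) ≠ 0 → ∀ z : ℂ, aeval z (N 3 (V (sg 3) w)) = 0 →
      3 * z.re ^ 2 ≤ z.im ^ 2) := by
  obtain ⟨L, hL⟩ := parity4 h hw
  have hz : N 3 (V (sg 3) w) ≠ 0 → ∀ z : ℂ, aeval z (N 3 (V (sg 3) w)) = 0 →
      3 * z.re ^ 2 ≤ z.im ^ 2 := fun hne z hz => zeros4 hR h hw hne hz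
  exact ⟨logConcave_main _ L hL hz, hz⟩

end

end Pool.Agent.Helper69.S4
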